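import Pool.Agent.AT6.Stmts1
import Pool.Agent.Helper25_KF.Idm

/-!
# Squad AT6: small tools (divisibility, lifts)
-/

open scoped BigOperators

noncomputable section

namespace Pool.Agent.PP.T6.H66

open Pool.Agent.Helper51_AWC Pool.Agent.Helper79_WRA Pool.Agent.PP Pool.Agent.PP.KF
open Pool.Agent.PP.K9 Pool.Agent.PP.K9.H97 Pool.Agent.PP.H75 Pool.Agent.PP.T3 Pool.Agent.PP.T2

attribute [local instance] Ideal.Quotient.field

section dv

variable {M : Ideal (integralClosure ℤ ℂ)} [M.IsMaximal] {m z z' t : ℂ}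

theorem dv_zero : Dv M m 0 := ⟨0, (RM M).zero_mem, by rw [mul_zero]⟩

theorem dv_add (h : Dv M m z) (h' : Dv M m z') : Dv M m (z + z') := by
  obtain ⟨t, ht, rfl⟩ := h
  obtain ⟨t', ht', rfl⟩ := h'
  exact ⟨t + t', (RM M).add_mem ht ht', by ring⟩

theorem dv_neg (h : Dv M m z) : Dv M m (-z) := by
  obtain ⟨t, ht, rfl⟩ := h
  exact ⟨-t, (RM M).neg_mem ht, by ring⟩

theorem dv_sub (h : Dv M m z) (h' : Dv M m z') : Dv M m (z - z') := by
  rw [sub_eq_add_neg]
  exact dv_add h (dv_neg h')

theorem dv_mul_left (ht : t ∈ RM M) (h : Dv M m z) : Dv M m (t * z) := by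
  obtain ⟨s, hs, rfl⟩ := h
  exact ⟨t * s, (RM M).mul_mem ht hs, by ring⟩

theorem dv_mul_right (h : Dv M m z) (ht : t ∈ RM M) : Dv M m (z * t) := by
  rw [mul_comm]
  exact dv_mul_left ht h

theorem dv_self (ht : t ∈ RM M) : Dv M m (m * t) := ⟨t, ht, rfl⟩

theorem dv_sum {ι : Type*} (s : Finset ι) (f : ι → ℂ) (h : ∀ i ∈ s, Dv M m (f i)) :
    Dv M m (∑ i ∈ s, f i) := by
  classical
  induction s using Finset.induction_on with
  | empty => rw [Finset.sum_empty]; exact dv_zero
  | insert a s ha ih =>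
    rw [Finset.sum_insert ha]
    exact dv_add (h a (Finset.mem_insert_self a s))
      (ih (fun i hi => h i (Finset.mem_insert_of_mem hi)))

theorem dv_finsum {ι : Type*} (f : ι → ℂ) (h : ∀ i, Dv M m (f i)) :
    Dv M m (∑ᶠ i, f i) := by
  classical
  by_cases hf : (Function.support f).Finite
  · rw [finsum_eq_sum_of_support_subset f (s := hf.toFinset) (by simp)]
    exact dv_sum _ _ (fun i _ => h i)
  · rw [finsum_of_infinite_support hf]
    exact dv_zero

/-- products of congruent numbers -/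
theorem dv_mul_sub {a a' b b' : ℂ} (ha : a ∈ RM M) (hb' : b' ∈ RM M) (h : Dv M m (a - a'))
    (h' : Dv M m (b - b')) : Dv M m (a * b - a' * b') := by
  have e : a * b - a' * b' = a * (b - b') + (a - a') * b' := by ring
  rw [e]
  exact dv_add (dv_mul_left ha h') (dv_mul_right h hb')

theorem rm_finsum {ι : Type*} (f : ι → ℂ) (h : ∀ i, f i ∈ RM M) : ∑ᶠ i, f i ∈ RM M := by
  classical
  by_cases hf : (Function.support f).Finite
  · rw [finsum_eq_sum_of_support_subset f (s := hf.toFinset) (by simp)]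
    exact (RM M).sum_mem (fun i _ => h i)
  · rw [finsum_of_infinite_support hf]
    exact (RM M).zero_mem

end dv

section hat

variable {M : Ideal (integralClosure ℤ ℂ)} [M.IsMaximal] {G : Type} [Group G] [Finite G]

theorem hat_mem {X : Subgroup G} {b : G → FF M} (hb : Ix X b) (x : G) : hat M X b x ∈ RM M := by
  unfold hat
  by_cases hx : x ∈ X
  · rw [H75.ext0, dif_pos hx]
    exact ((KF.H25.idm M X _ hb.idem).1 _).1
  · rw [ext0_supp X _ x hx]
    exact (RM M).zero_mem

theorem gv_eq_fv (C : Subgroup G) (k : G) (b : G → FF M) (θ : G → ℂ) :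
    gv M C k b θ = T8.fv (hat M C b) k θ := by
  unfold gv gbv T8.fv hat
  rw [← finsum_mem_univ (f := fun g => H75.ext0 C (eh M fun t : C => b t) g * θ (k * g))]
  have h1 : ∑ᶠ (g : G) (_ : g ∈ Set.univ), H75.ext0 C (eh M fun t : C => b t) g * θ (k * g) =
      ∑ᶠ (g : G) (_ : g ∈ Set.range (Subtype.val : C → G)),
        H75.ext0 C (eh M fun t : C => b t) g * θ (k * g) := by
    apply finsum_mem_inter_support_eq
    ext g
    simp only [Set.mem_inter_iff, Set.mem_univ, true_and, Function.mem_support]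
    constructor
    · intro h
      refine ⟨?_, h⟩
      by_contra h2
      apply h
      rw [ext0_supp C _ g (fun h3 => h2 ⟨⟨g, h3⟩, rfl⟩), zero_mul]
    · exact fun h => h.2
  rw [h1, finsum_mem_range Subtype.val_injective]
  apply finsum_congr
  intro c
  rw [ext0_apply]

end hat

end Pool.Agent.PP.T6.H66
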