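import Pool.Agent.AT6.Stmts4
import Pool.Agent.Helper34_K9.INX

/-!
# Squad AT6, row LB6: the bound for the number of modular characters, induction on the rank
-/

open scoped BigOperators

noncomputable section

namespace Pool.Agent.PP.T6.H66

open Pool.Agent.Helper51_AWC Pool.Agent.Helper79_WRA Pool.Agent.PP Pool.Agent.PP.KF
open Pool.Agent.PP.K9 Pool.Agent.PP.K9.H97 Pool.Agent.PP.H75 Pool.Agent.PP.T3 Pool.Agent.PP.T2

attribute [local instance] Ideal.Quotient.field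

theorem expo (r : ℕ) : 3 + (2 * r ^ 4 + 39 * r ^ 2) + (r + 1) ^ 2 +
    (r + 1) * (3 * (2 * (r + 1) ^ 2 + 10) + 1) ≤ 2 * (r + 1) ^ 4 + 39 * (r + 1) ^ 2 := by
  have h : (7 : ℤ) * r ^ 2 ≤ 2 * r ^ 3 + 35 * r := by
    have h0 : (0 : ℤ) ≤ r := Int.natCast_nonneg r
    nlinarith [mul_nonneg h0 (sq_nonneg (4 * (r : ℤ) - 7))]
  zify
  nlinarith [h]

theorem ln_le_one (dzo : K9.DzoStmt) (lbd : K9.LbdStmt) (ℓ : ℕ) [Fact ℓ.Prime]
    (M : Ideal (integralClosure ℤ ℂ)) [M.IsMaximal] (hM : (ℓ : integralClosure ℤ ℂ) ∈ M)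
    (G : Type) [Group G] [Finite G] (e : G → FF M) (he : IsBlk e)
    (ht : Tp ℓ e (⊥ : Subgroup G)) : ln e ≤ 1 := by
  obtain ⟨κ, hκ, _⟩ := dzo ℓ M hM G e he (fun Q hQ hg => by
    have h1 := ht.mx Q hQ hg
    rw [Subgroup.card_bot] at h1
    exact Subgroup.eq_bot_of_card_le Q h1)
  have h2 := (lbd ℓ M hM G e he.1 he.2.1).2
  rw [hκ, Set.ncard_singleton] at h2
  exact h2

theorem lb6 (rka : RkaStmt) (ixb : IxbStmt) (lnc : LncStmt) (fbd : FbdStmt)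
    (pr5 : T5.Pr5Stmt) (fx5 : T5.Fx5Stmt) (dzo : K9.DzoStmt) (lbd : K9.LbdStmt) : Lb6Stmt := by
  intro ℓ _ M _ hM r
  have hpr : ℓ.Prime := Fact.out
  have hF : GoodF ℓ (FF M) := H50.fld ℓ Fact.out M hM
  induction r with
  | zero =>
    intro G _ _ e V γ hL hr
    have hV := (rka ℓ G V hL.tp.pg hL.ab 0 hr).2.1 rfl
    have ht := hL.tp
    rw [hV] at ht
    have := ln_le_one dzo lbd ℓ M hM G e hL.blk ht
    simpa using this
  | succ r ih =>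
    intro G _ _ e V γ hL hr
    by_cases hV : V = ⊥
    · have ht := hL.tp
      rw [hV] at ht
      exact (ln_le_one dzo lbd ℓ M hM G e hL.blk ht).trans (Nat.one_le_pow _ _ hpr.pos)
    obtain ⟨R1, _, _, R4⟩ := rka ℓ G V hL.tp.pg hL.ab (r + 1) hr
    -- the exponent
    obtain ⟨k, hk⟩ := IsPGroup.iff_card.1 hL.tp.pg
    have hexd : Monoid.exponent V ∣ ℓ ^ k := by
      rw [← hk]
      exact Group.exponent_dvd_nat_card
    obtain ⟨a, _, ha⟩ := (Nat.dvd_prime_pow hpr).1 hexd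
    have ha0 : 0 < a := by
      rcases Nat.eq_zero_or_pos a with h0 | h0
      · exfalso
        rw [h0, pow_zero, Monoid.exp_eq_one_iff] at ha
        have := ha
        exact hV (Subgroup.eq_bot_of_subsingleton V)
      · exact h0
    have hix : ¬ ℓ ∣ ix V γ :=
      H34.inx ℓ M hM G e hL.blk V hL.tp hL.ab γ hL.gam.supp hL.gam.blk hL.und
    have hixb : ix V γ ≤ ℓ ^ (r + 1) ^ 2 := ixb ℓ (FF M) hF G e V γ hL hix (r + 1) hr
    obtain ⟨N, hN⟩ := pr5 ℓ G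
    have h1 := fx5 ℓ M hM G N hN e hL.blk.1
    set c : ℕ := 2 * (r + 1) ^ 2 + 10 with hc
    have hcc : 512 * ix V γ ^ 2 < ℓ ^ c := by
      have e1 : ix V γ ^ 2 ≤ ℓ ^ (2 * (r + 1) ^ 2) := by
        calc ix V γ ^ 2 ≤ (ℓ ^ (r + 1) ^ 2) ^ 2 := Nat.pow_le_pow_left hixb 2
          _ = ℓ ^ (2 * (r + 1) ^ 2) := by rw [← pow_mul, mul_comm]
      have e2 : 512 < ℓ ^ 10 := by
        calc 512 < 2 ^ 10 := by norm_num
          _ ≤ ℓ ^ 10 := Nat.pow_le_pow_left hpr.two_le 10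
      calc 512 * ix V γ ^ 2 ≤ 512 * ℓ ^ (2 * (r + 1) ^ 2) := Nat.mul_le_mul_left _ e1
        _ < ℓ ^ 10 * ℓ ^ (2 * (r + 1) ^ 2) :=
            Nat.mul_lt_mul_of_pos_right e2 (pow_pos hpr.pos _)
        _ = ℓ ^ c := by rw [← pow_add, hc, add_comm]
    have hβ : ∀ v ∈ V, orderOf v = ℓ ^ a → ∀ b, Lc e V γ v b →
        ln (fun t : Cu v => b t) ≤ ℓ ^ (2 * r ^ 4 + 39 * r ^ 2) := by
      intro v hv hva b hb
      obtain ⟨A, iA, fA, p, hp, hker, ⟨γ', hγ'⟩, hln⟩ := lnc ℓ M hM G e V γ hL v hv b hb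
      rw [← hln]
      apply ih A _ _ γ' hγ'
      have h4 := R4 a ha0 ha v hv hva (Cu v) (fun x hx => by
        rw [Subgroup.mem_centralizer_singleton_iff]
        exact hL.ab x hx v hv) A p hker
      rwa [Nat.add_sub_cancel] at h4
    have h2 := fbd ℓ M hM G N hN e V γ hL a ha0 ha c hcc _ hβ
    have h3 := R1 (3 * c + 1)
    have hW : 0 < Nat.card (Uw (ℓ ^ (3 * c + 1)) V) := Nat.card_pos
    have h5 : (T5.Rf M N e).ncard * Nat.card (Uw (ℓ ^ (3 * c + 1)) V) ≤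
        (8 * ℓ ^ (2 * r ^ 4 + 39 * r ^ 2) * ix V γ * ℓ ^ ((r + 1) * (3 * c + 1))) *
          Nat.card (Uw (ℓ ^ (3 * c + 1)) V) := by
      calc _ ≤ _ := h2
        _ ≤ 8 * ℓ ^ (2 * r ^ 4 + 39 * r ^ 2) * ix V γ *
            (ℓ ^ ((r + 1) * (3 * c + 1)) * Nat.card (Uw (ℓ ^ (3 * c + 1)) V)) :=
          Nat.mul_le_mul_left _ h3
        _ = _ := by ring
    have h6 := Nat.le_of_mul_le_mul_right h5 hW
    calc ln e ≤ (T5.Rf M N e).ncard := h1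
      _ ≤ 8 * ℓ ^ (2 * r ^ 4 + 39 * r ^ 2) * ix V γ * ℓ ^ ((r + 1) * (3 * c + 1)) := h6
      _ ≤ ℓ ^ 3 * ℓ ^ (2 * r ^ 4 + 39 * r ^ 2) * ℓ ^ (r + 1) ^ 2 *
          ℓ ^ ((r + 1) * (3 * c + 1)) := by
        apply Nat.mul_le_mul_right
        apply Nat.mul_le_mul _ hixb
        apply Nat.mul_le_mul_right
        calc 8 = 2 ^ 3 := by norm_num
          _ ≤ ℓ ^ 3 := Nat.pow_le_pow_left hpr.two_le 3
      _ = ℓ ^ (3 + (2 * r ^ 4 + 39 * r ^ 2) + (r + 1) ^ 2 + (r + 1) * (3 * c + 1)) := by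
        rw [pow_add _ (3 + _ + _), pow_add _ (3 + _), pow_add _ 3]
      _ ≤ ℓ ^ (2 * (r + 1) ^ 4 + 39 * (r + 1) ^ 2) := by
        apply Nat.pow_le_pow_right hpr.pos
        rw [hc]
        exact expo r

end Pool.Agent.PP.T6.H66
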