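import Pool.Agent.AT6.Stmts2
import Pool.Agent.Helper66_AT6.Tools

/-!
# Squad AT6, row TRN: translation by a central element
-/

open scoped BigOperators

noncomputable section

namespace Pool.Agent.PP.T6.H66

open Pool.Agent.Helper51_AWC Pool.Agent.Helper79_WRA Pool.Agent.PP Pool.Agent.PP.KF
open Pool.Agent.PP.K9 Pool.Agent.PP.K9.H97 Pool.Agent.PP.H75 Pool.Agent.PP.T3 Pool.Agent.PP.T2

attribute [local instance] Ideal.Quotient.field

section el

variable {G : Type} [Group G] {ℓ : ℕ}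

theorem el_mul {x y : G} (hx : El ℓ x) (hy : El ℓ y) (h : Commute x y) : El ℓ (x * y) := by
  obtain ⟨n, hn⟩ := hx
  obtain ⟨m, hm⟩ := hy
  refine ⟨n + m, ?_⟩
  rw [h.mul_pow, pow_add, pow_mul, hn, one_pow, one_mul, mul_comm (ℓ ^ n), pow_mul, hm, one_pow]

theorem el_inv {x : G} (hx : El ℓ x) : El ℓ x⁻¹ := by
  obtain ⟨n, hn⟩ := hx
  exact ⟨n, by rw [inv_pow, hn, inv_one]⟩

theorem el_pow {x : G} (hx : El ℓ x) (k : ℕ) : El ℓ (x ^ k) := by
  obtain ⟨n, hn⟩ := hx
  exact ⟨n, by rw [← pow_mul, mul_comm, pow_mul, hn, one_pow]⟩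

theorem lp_mul_central {g v z : G} (hz : El ℓ z) (hc : z ∈ Subgroup.center G)
    (h : T5.Lp ℓ g v) : T5.Lp ℓ (g * z) (v * z) := by
  have hz' : ∀ x : G, Commute z x := fun x => ((Subgroup.mem_center_iff.1 hc x).symm)
  refine ⟨el_mul h.el hz (hz' v).symm, ?_, ?_⟩
  · exact ((h.com.mul_right (hz' v).symm).mul_left ((hz' g).mul_right (Commute.refl z)))
  · have e : (v * z)⁻¹ * (g * z) = v⁻¹ * g := by
      rw [← (hz' v).eq]
      have : (z * v)⁻¹ * (g * z) = v⁻¹ * (z⁻¹ * g * z) := by group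
      rw [this]
      congr 1
      rw [mul_assoc, ← (hz' g).eq]
      group
    rw [e]
    exact h.reg

end el

theorem trn (svv : SvvStmt) (cnb : CnbStmt) : TrnStmt := by
  intro ℓ _ M _ hℓ G _ _ θ θ' hθ hθ' w hw hwc c v b hb y hy S hS
  classical
  have := Fintype.ofFinite G
  set z : G := w ^ ℓ ^ (c + 1) with hzdef
  have hz : El ℓ z := el_pow hw _
  have hzc : z ∈ Subgroup.center G := (Subgroup.center G).pow_mem hwc _
  have hzx : ∀ x : G, z * x = x * z := fun x => (Subgroup.mem_center_iff.1 hzc x).symm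
  have hwx : ∀ x : G, w * x = x * w := fun x => (Subgroup.mem_center_iff.1 hwc x).symm
  have hCu : Cu (v * z) = Cu v := by
    ext x
    rw [Subgroup.mem_centralizer_singleton_iff, Subgroup.mem_centralizer_singleton_iff]
    constructor
    · intro h
      have h2 : x * v * z = v * x * z := by
        rw [mul_assoc, h, mul_assoc v z x, hzx, ← mul_assoc]
      exact mul_right_cancel h2
    · intro h
      rw [← mul_assoc, h, mul_assoc, ← hzx, ← mul_assoc]
  have hb' : Ix (Cu (v * z)) b := by rw [hCu]; exact hb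
  obtain ⟨s1, s2, _, s4, _⟩ := svv ℓ M hℓ G v b hb θ hθ.cl
  obtain ⟨t1, t2, _, t4, _⟩ := svv ℓ M hℓ G (v * z) b hb' θ hθ.cl
  -- the section components
  have key1 : ∀ h : G, Dv M ((ℓ : ℂ) ^ c) (sv M ℓ (v * z) b θ (h * z) - sv M ℓ v b θ h) := by
    intro h
    by_cases hu : ∃ u : G, T5.Lp ℓ (u⁻¹ * h * u) v
    · obtain ⟨u, hu⟩ := hu
      have e1 : u⁻¹ * (h * z) * u = u⁻¹ * h * u * z := by
        rw [← mul_assoc, mul_assoc _ z u, hzx u, ← mul_assoc]
      rw [s1 h u hu, t1 (h * z) u (by rw [e1]; exact lp_mul_central hz hzc hu), e1, hCu,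
        gv_eq_fv, gv_eq_fv]
      exact cnb ℓ M G θ hθ (hat M (Cu v) b) (hat_mem hb) w _ hw (hwx _)
        (fun x => by rw [hwx x, mul_inv_cancel_right]) c
    · rw [s2 h (fun u hu' => hu ⟨u, hu'⟩), t2 (h * z), sub_zero]
      · exact dv_zero
      · intro u hu'
        apply hu
        refine ⟨u, ?_⟩
        have e1 : u⁻¹ * (h * z) * u = u⁻¹ * h * u * z := by
          rw [← mul_assoc, mul_assoc _ z u, hzx u, ← mul_assoc]
        rw [e1] at hu'
        have h3 := lp_mul_central (el_inv hz) ((Subgroup.center G).inv_mem hzc) hu'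
        rwa [mul_inv_cancel_right, mul_inv_cancel_right] at h3
  have key2 : ∀ h : G, Dv M ((ℓ : ℂ) ^ c) (T8.fv y (h * z)⁻¹ θ' - T8.fv y h⁻¹ θ') := by
    intro h
    have e1 : (h * z)⁻¹ = h⁻¹ * w⁻¹ ^ ℓ ^ (c + 1) := by
      rw [← hzx h, mul_inv_rev, hzdef, inv_pow]
    rw [e1]
    exact cnb ℓ M G θ' hθ' y hy w⁻¹ h⁻¹ (el_inv hw)
      (by rw [← mul_inv_rev, ← mul_inv_rev, hwx])
      (fun x => by
        have : w⁻¹ * x * w⁻¹⁻¹ = x := by
          rw [inv_inv, mul_assoc, ← hwx x, ← mul_assoc, inv_mul_cancel, one_mul]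
        rw [this]) c
  have hfv : ∀ k : G, T8.fv y k θ' ∈ RM M :=
    fun k => rm_finsum _ (fun x => (RM M).mul_mem (hy x) (hθ'.rm _))
  have hsv : ∀ x, sv M ℓ (v * z) b θ x ∈ RM M := t4 hθ.rm
  -- change of variables
  have hsum : ∑ᶠ (h : G) (_ : h ∈ S), sv M ℓ (v * z) b θ h * T8.fv y h⁻¹ θ' =
      ∑ᶠ (h : G) (_ : h ∈ S), sv M ℓ (v * z) b θ (h * z) * T8.fv y (h * z)⁻¹ θ' := by
    rw [finsum_mem_def, finsum_mem_def, finsum_eq_sum_of_fintype, finsum_eq_sum_of_fintype]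
    symm
    apply Fintype.sum_equiv (Equiv.mulRight z)
    intro h
    simp only [Set.indicator, Equiv.coe_mulRight]
    by_cases hh : h ∈ S
    · rw [if_pos hh, if_pos ((hS h).1 hh)]
    · rw [if_neg hh, if_neg (fun h2 => hh ((hS h).2 h2))]
  rw [hsum, finsum_mem_def, finsum_mem_def, finsum_eq_sum_of_fintype, finsum_eq_sum_of_fintype,
    ← Finset.sum_sub_distrib]
  apply dv_sum
  intro h _
  simp only [Set.indicator]
  by_cases hh : h ∈ S
  · rw [if_pos hh, if_pos hh]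
    exact dv_mul_sub (hsv _) (hfv _) (key1 h) (key2 h)
  · rw [if_neg hh, if_neg hh, sub_zero]
    exact dv_zero

end Pool.Agent.PP.T6.H66
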