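import Pool.Agent.Helper98_AT2.Asm2
import Pool.Agent.Helper32_AT5.CYS
import Pool.Agent.Helper48_AT5.TWY
import Pool.Agent.Helper48_AT5.TWT
import Pool.Agent.Helper82_AT5.NCL
import Pool.Agent.Helper45_AT5.KER
import Pool.Agent.Helper48_AT5.CO3
import Pool.Agent.Helper89_AT5.CO5
import Pool.Agent.Helper81_AT5.SEI
import Pool.Agent.Helper32_AT5.ZIM
import Pool.Agent.Helper39_AT5.DEG
import Pool.Agent.Helper24_AT5.INQ
import Pool.Agent.Helper60_AT5.PR5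
import Pool.Agent.Helper46_AT5.FX5
import Pool.Agent.Helper21_AT8.RVA
import Pool.Agent.Helper17_AT8.OMI
import Pool.Agent.Helper53_AT8.FCH
import Pool.Agent.Helper17_AT6.OBZ
import Pool.Agent.Helper45_AT6.OR6
import Pool.Agent.Helper69_AT6.DIV
import Pool.Agent.Helper62_AT6.CNB
import Pool.Agent.Helper69_AT6.SVV
import Pool.Agent.Helper89_AT6.KRF
import Pool.Agent.Helper81_AT6.CPL
import Pool.Agent.Helper39_AT6.LWD
import Pool.Agent.Helper39_AT6.CND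
import Pool.Agent.Helper17_AT6.CLC
import Pool.Agent.Helper66_AT6.TRN
import Pool.Agent.Helper35_AT6.YEX
import Pool.Agent.Helper56_AT6.APS
import Pool.Agent.Helper3_AT6.APX
import Pool.Agent.Helper33_AT6.INM
import Pool.Agent.Helper25_AT6.PSV
import Pool.Agent.Helper28_AT6.NRP
import Pool.Agent.Helper64_AT6.GEO
import Pool.Agent.Helper72_AT6.EQM
import Pool.Agent.Helper41_AT6.DIM
import Pool.Agent.Helper81_AT6.PGR
import Pool.Agent.Helper33_AT6.ISO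
import Pool.Agent.Helper85_AT6.PIG
import Pool.Agent.Helper41_AT6.FBD
import Pool.Agent.Helper95_AT6.RKA
import Pool.Agent.Helper15_AT6.IXB
import Pool.Agent.Helper24_AT6.LNC
import Pool.Agent.Helper66_AT6.LB6
import Pool.Agent.Helper55_AT6.T6A
import Pool.Agent.Helper41_AT6.FN6
import Pool.Agent.Helper46_AT6.LCX
import Pool.Agent.Helper32_AT6.SEC
import Pool.Agent.Helper94_AT6.BLK
import Pool.Agent.Helper9_AT6.BSL
import Pool.Agent.Helper94_AT6.AVG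
import Pool.Agent.Helper87_AT6.FN7
import Pool.Agent.Helper32_AT6.IPS
import Pool.Agent.Helper56_AT6.CNA
import Pool.Agent.Helper83_AT6.PWN
import Pool.Agent.Helper88_AT6.YID
import Pool.Agent.Helper16_AT6.SMH

/-!
# Squad AT6: the assembly, THEOREM T6
-/

noncomputable section

namespace Pool.Agent.PP.T6

open Pool.Agent.Helper51_AWC Pool.Agent.Helper79_WRA Pool.Agent.PP Pool.Agent.PP.KF
open Pool.Agent.PP.K9 Pool.Agent.PP.K9.H97 Pool.Agent.PP.H75 Pool.Agent.PP.T3 Pool.Agent.PP.T2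

theorem ker5_ : T5.KerStmt := T5.H45.ker
theorem co3_ : T5.Co3Stmt := T5.H48.co3 ker5_
theorem co5_ : T5.Co5Stmt := T5.H89.co5 ker5_
theorem twy_ : T5.TwyStmt := T5.H48.twy T3.smg_ co3_
theorem twt_ : T5.TwtStmt := T5.H48.twt T3.lrk_
theorem ncl_ : T5.NclStmt :=
  T5.H82.ncl (H74.brt H20.ibf H20.ibc H20.ibj H20.ibn) K9.H3.rnk_ H20.eig
theorem cys_ : T5.CysStmt := T5.H32.cys twt_ ncl_
theorem pr5_ : T5.Pr5Stmt := T5.H60.pr5
theorem fx5_ : T5.Fx5Stmt := T5.H46.fx5 T2.fxy_ T3.lrk_ twy_ cys_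
theorem inq_ : T5.InqStmt :=
  T5.H24.inq (T5.H81.sei K9.ada_ K9.H27.prt) T5.H32.zim (T5.H39.deg K9.H69.fmg)
theorem omi_ : T8.OmiStmt := T8.H17.omi
theorem rva_ : T8.RvaStmt := T8.H21.rva
theorem fch_ : T8.FchStmt := T8.H53.fch

theorem obz_ : ObzStmt := H17.obz
theorem or6_ : Or6Stmt := H45.or6 obz_
theorem cnb_ : CnbStmt := H62.cnb obz_
theorem svv_ : SvvStmt := H69.svv
theorem krf_ : KrfStmt := H89.krf
theorem lwd_ : LwdStmt := H39.lwd
theorem cnd_ : CndStmt := H39.cnd T3.fus_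
theorem clc_ : ClcStmt := H17.clc svv_ krf_
theorem trn_ : TrnStmt := H66.trn svv_ cnb_
theorem yex_ : YexStmt := H35.yex omi_ K9.H69.fmg K9.H34.inx
theorem inm_ : InmStmt := H33.inm inq_ T3.lsb_ T3.lpw_
theorem psv_ : PsvStmt := H25.psv K9.nz_
theorem nrp_ : NrpStmt := H28.nrp
theorem geo_ : GeoStmt := H64.geo inm_ psv_ nrp_
theorem dim_ : DimStmt := H41.dim K9.wbo_ T3.lrk_
theorem pgr_ : PgrStmt := H81.pgr dim_
theorem iso_ : IsoStmt := H33.iso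
theorem pig_ : PigStmt := H85.pig
theorem rka_ : RkaStmt := H95.rka T2.pwu_
theorem ixb_ : IxbStmt := H15.ixb T2.pwu_
theorem lnc_ : LncStmt := H24.lnc T3.psg_ K9.H02.pug T3.lsb_

theorem pwn_ : PwnStmt := H83.pwn
theorem div_ : DivStmt := H69.div pwn_ or6_
theorem cna_ : CnaStmt := H56.cna
theorem smh_ : SmhStmt := H16.smh T3.smg_
theorem lcx_ : LcxStmt := H46.lcx T3.dug_
theorem sec_ : SecStmt := H32.sec svv_ smh_ lcx_ T3.loc_ T3.fus_
theorem ips_ : IpsStmt := H32.ips K9.rot_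
theorem yid_ : YidStmt := H88.yid ips_ svv_
theorem cpl_ : CplStmt := H81.cpl sec_ ips_
theorem blk_ : BlkStmt := H94.blk svv_ clc_ cnd_ div_ T2.pwu_
theorem aps_ : ApsStmt := H56.aps yid_ or6_ sec_ blk_ lwd_ svv_ K9.H34.inx
theorem apx_ : ApxStmt := H3.apx cna_ lwd_ yex_ trn_ aps_ T3.loc_ T2.pwu_ K9.H34.inx
theorem eqm_ : EqmStmt := H72.eqm inm_ psv_ nrp_ apx_ T3.lpw_
theorem bsl_ : BslStmt := H9.bsl co3_ co5_ T3.fus_
theorem avg_ : AvgStmt := H94.avg iso_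
theorem fbd_ : FbdStmt :=
  H41.fbd cpl_ psv_ geo_ eqm_ pgr_ bsl_ avg_ pig_ T3.loc_ T3.lpw_ T2.pwu_
theorem lb6_ : Lb6Stmt := H66.lb6 rka_ ixb_ lnc_ fbd_ pr5_ fx5_ K9.dzo_ K9.H3.lbd
theorem t6a_ : T6aStmt := H55.t6a lb6_ rka_ T2.fst_ T2.tes_ T2.dvx_

/-- THEOREM T6 -/
theorem fn6_ : Fn6Stmt := H41.fn6 t6a_ T2.dza_

/-- the bound for the number of the irreducible modular characters -/
theorem fn7_ : Fn7Stmt := H87.fn7 lb6_ dim_

end Pool.Agent.PP.T6
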